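import Mathlib

/-!
# Partitions of infinite groups into countably many two-sided syndetic pieces
-/

namespace V11290.PG

open Set

universe u

/-- A maximal subset on which a family of finite sets is pairwise disjoint. -/
theorem exists_maximal_disjoint {G : Type u} (t : G → Finset G) (ht : ∀ x, (t x).Nonempty) :
    ∃ S : Set G, (∀ s ∈ S, ∀ s' ∈ S, s ≠ s' → Disjoint (t s) (t s')) ∧
      ∀ x, ∃ s ∈ S, ¬ Disjoint (t x) (t s) := by
  obtain ⟨S, hS⟩ := zorn_subset
    {S : Set G | ∀ s ∈ S, ∀ s' ∈ S, s ≠ s' → Disjoint (t s) (t s')} (by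
      intro c hc hch
      refine ⟨⋃₀ c, ?_, fun s hs => subset_sUnion_of_mem hs⟩
      rintro s ⟨A, hA, hs⟩ s' ⟨B, hB, hs'⟩ hne
      rcases hch.total hA hB with h | h
      · exact hc hB s (h hs) s' hs' hne
      · exact hc hA s hs s' (h hs') hne)
  refine ⟨S, hS.prop, ?_⟩
  intro x
  by_contra hcon
  push Not at hcon
  have hx : x ∉ S := by
    intro hx
    have := hcon x hx
    rw [Finset.disjoint_self_iff_empty] at this
    exact (ht x).ne_empty this
  have hins : insert x S ∈ {S : Set G | ∀ s ∈ S, ∀ s' ∈ S, s ≠ s' → Disjoint (t s) (t s')} := by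
    rintro s (rfl | hs) s' (rfl | hs') hne
    · exact absurd rfl hne
    · exact hcon s' hs'
    · exact (hcon s hs).symm
    · exact hS.prop s hs s' hs' hne
  exact hx (hS.le_of_ge hins (subset_insert x S) (mem_insert x S))

open Pointwise in
/-- Every infinite group has a colouring onto `ℕ` all of whose classes are syndetic
on both sides. -/
theorem exists_syndetic_colouring (G : Type u) [Group G] [Infinite G] :
    ∃ χ : G → ℕ, Function.Surjective χ ∧ ∀ k, ∃ F : Set G, F.Finite ∧
      F * (χ ⁻¹' {k}) = univ ∧ (χ ⁻¹' {k}) * F = univ := by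
  classical
  choose Φ hΦ using fun k : ℕ => Infinite.exists_subset_card_eq G (2 ^ (k + 3))
  let t : ℕ × Bool → G → Finset G := fun p x =>
    (Φ p.1).image (fun a => if p.2 then a * x else x * a)
  have htc : ∀ p x, (t p x).card = 2 ^ (p.1 + 3) := by
    rintro ⟨k, b⟩ x
    simp only [t]
    rw [Finset.card_image_of_injective, hΦ]
    intro a a' haa
    cases b with
    | true =>
      have haa' : a * x = a' * x := haa
      exact mul_right_cancel haa'
    | false =>
      have haa' : x * a = x * a' := haa
      exact mul_left_cancel haa'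
  have htne : ∀ p x, (t p x).Nonempty := by
    intro p x
    rw [← Finset.card_pos, htc]
    positivity
  choose S hS1 hS2 using fun p => exists_maximal_disjoint (t p) (htne p)
  let ι := Σ p : ℕ × Bool, S p
  let T : ι → Finset G := fun i => t i.1 i.2
  have hall : ∀ s : Finset ι, s.card ≤ (s.biUnion T).card := by
    intro s
    set M := (s.biUnion T).card with hM
    have hp : ∀ p : ℕ × Bool, (s.filter (fun i => i.1 = p)).card * 2 ^ (p.1 + 3) ≤ M := by
      intro p
      have h1 : ((s.filter (fun i => i.1 = p)).biUnion T).card =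
          ∑ i ∈ s.filter (fun i => i.1 = p), (T i).card := by
        apply Finset.card_biUnion
        intro i hi j hj hij
        have hi' := (Finset.mem_filter.1 (Finset.mem_coe.1 hi)).2
        have hj' := (Finset.mem_filter.1 (Finset.mem_coe.1 hj)).2
        obtain ⟨pi, si⟩ := i
        obtain ⟨pj, sj⟩ := j
        change pi = p at hi'
        change pj = p at hj'
        subst hi'
        subst hj'
        apply hS1 pj si si.2 sj sj.2
        intro e
        apply hij
        rw [Subtype.ext e]
      have h2 : ∑ i ∈ s.filter (fun i => i.1 = p), (T i).card =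
          (s.filter (fun i => i.1 = p)).card * 2 ^ (p.1 + 3) := by
        rw [Finset.sum_const_nat]
        intro i hi
        have hi' := (Finset.mem_filter.1 hi).2
        simp only [T]
        rw [htc, hi']
      rw [← h2, ← h1, hM]
      apply Finset.card_le_card
      exact Finset.biUnion_subset_biUnion_of_subset_left _ (Finset.filter_subset _ _)
    obtain ⟨K, hK⟩ : ∃ K : ℕ, ∀ i ∈ s, i.1.1 < K := by
      refine ⟨(s.sup (fun i => i.1.1)) + 1, fun i hi => ?_⟩
      exact Nat.lt_succ_of_le (Finset.le_sup (f := fun i : ι => i.1.1) hi)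
    have hsum : s.card = ∑ p ∈ (Finset.range K) ×ˢ (Finset.univ : Finset Bool),
        (s.filter (fun i => i.1 = p)).card := by
      apply Finset.card_eq_sum_card_fiberwise
      intro i hi
      simp only [Finset.coe_product, Finset.coe_range, Finset.coe_univ, mem_prod, mem_Iio,
        mem_univ, and_true]
      exact hK i hi
    have hreal : (s.card : ℝ) ≤ M := by
      rw [hsum]
      push_cast
      calc ∑ p ∈ (Finset.range K) ×ˢ (Finset.univ : Finset Bool),
            ((s.filter (fun i => i.1 = p)).card : ℝ)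
          ≤ ∑ p ∈ (Finset.range K) ×ˢ (Finset.univ : Finset Bool), (M : ℝ) / 8 * (1 / 2) ^ p.1 := by
            apply Finset.sum_le_sum
            intro p _
            have h := hp p
            have h' : ((s.filter (fun i => i.1 = p)).card : ℝ) * 2 ^ (p.1 + 3) ≤ M := by
              exact_mod_cast h
            have h2 : (0 : ℝ) < 2 ^ (p.1 + 3) := by positivity
            rw [← le_div_iff₀ h2] at h'
            refine h'.trans (le_of_eq ?_)
            rw [pow_add, one_div, inv_pow]
            field_simp
            norm_num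
        _ = ∑ k ∈ Finset.range K, (M : ℝ) / 4 * (1 / 2) ^ k := by
            rw [Finset.sum_product]
            apply Finset.sum_congr rfl
            intro k _
            simp only [Finset.sum_const, Finset.card_univ, Fintype.card_bool, nsmul_eq_mul]
            push_cast
            ring
        _ = (M : ℝ) / 4 * ∑ k ∈ Finset.range K, (1 / 2 : ℝ) ^ k := by
            rw [Finset.mul_sum]
        _ ≤ (M : ℝ) / 4 * 2 := by
            apply mul_le_mul_of_nonneg_left (sum_geometric_two_le K)
            positivity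
        _ ≤ M := by
            have : (0 : ℝ) ≤ M := Nat.cast_nonneg _
            linarith
    exact_mod_cast hreal
  obtain ⟨f, hf1, hf2⟩ := (Finset.all_card_le_biUnion_card_iff_exists_injective T).1 hall
  let χ : G → ℕ := fun z => if h : ∃ i, f i = z then h.choose.1.1 else 0
  have hχ : ∀ i, χ (f i) = i.1.1 := by
    intro i
    have hex : ∃ j, f j = f i := ⟨i, rfl⟩
    simp only [χ]
    rw [dif_pos hex, hf1 hex.choose_spec]
  refine ⟨χ, ?_, ?_⟩
  · intro k
    obtain ⟨s, hs, -⟩ := hS2 (k, true) 1
    exact ⟨f ⟨(k, true), ⟨s, hs⟩⟩, hχ _⟩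
  · intro k
    refine ⟨((Φ k : Set G))⁻¹ * (Φ k : Set G) * ((Φ k : Set G))⁻¹, ?_, ?_, ?_⟩
    · exact ((Finset.finite_toSet _).inv.mul (Finset.finite_toSet _)).mul
        (Finset.finite_toSet _).inv
    · rw [eq_univ_iff_forall]
      intro x
      obtain ⟨s, hs, hd⟩ := hS2 (k, true) x
      rw [Finset.not_disjoint_iff] at hd
      obtain ⟨y, hy1, hy2⟩ := hd
      simp only [t, if_true, Finset.mem_image] at hy1 hy2
      obtain ⟨a, ha, rfl⟩ := hy1
      obtain ⟨b, hb, hb2⟩ := hy2
      have hw := hf2 ⟨(k, true), ⟨s, hs⟩⟩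
      simp only [T, t, if_true, Finset.mem_image] at hw
      obtain ⟨c, hc, hc2⟩ := hw
      refine mem_mul.2 ⟨a⁻¹ * b * c⁻¹, ?_, f ⟨(k, true), ⟨s, hs⟩⟩, hχ _, ?_⟩
      · exact mul_mem_mul (mul_mem_mul (Set.inv_mem_inv.2 ha) hb) (Set.inv_mem_inv.2 hc)
      · rw [← hc2]
        have : b * s = a * x := hb2
        calc a⁻¹ * b * c⁻¹ * (c * s) = a⁻¹ * (b * s) := by group
          _ = x := by rw [this]; group
    · rw [eq_univ_iff_forall]
      intro x
      obtain ⟨s, hs, hd⟩ := hS2 (k, false) x
      rw [Finset.not_disjoint_iff] at hd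
      obtain ⟨y, hy1, hy2⟩ := hd
      simp only [t, Finset.mem_image] at hy1 hy2
      obtain ⟨a, ha, rfl⟩ := hy1
      obtain ⟨b, hb, hb2⟩ := hy2
      have hw := hf2 ⟨(k, false), ⟨s, hs⟩⟩
      simp only [T, t, Finset.mem_image] at hw
      obtain ⟨c, hc, hc2⟩ := hw
      replace hb2 : s * b = x * a := by simpa using hb2
      replace hc2 : s * c = f ⟨(k, false), ⟨s, hs⟩⟩ := by simpa using hc2
      refine mem_mul.2 ⟨f ⟨(k, false), ⟨s, hs⟩⟩, hχ _, c⁻¹ * b * a⁻¹, ?_, ?_⟩
      · exact mul_mem_mul (mul_mem_mul (Set.inv_mem_inv.2 hc) hb) (Set.inv_mem_inv.2 ha)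
      · rw [← hc2]
        calc s * c * (c⁻¹ * b * a⁻¹) = (s * b) * a⁻¹ := by group
          _ = x := by rw [hb2]; group

end V11290.PG
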