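import Mathlib

/-!
# Rank functions coming from chains of subgroups

For a chain of subgroups of a group `G` and a well-order on `G` we attach to every element `z`
the set `N z` of indices at which the least element of the right coset `K z` changes.
This set is finite.
-/

namespace V11290.PG

open Cardinal Set

universe u v

/-- The subgroup generated by a set has cardinality at most `max ℵ₀ #s`. -/
theorem mk_closure_le {G : Type u} [Group G] (s : Set G) :
    #(Subgroup.closure s) ≤ max ℵ₀ #s := by
  classical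
  have hr : (FreeGroup.lift (fun x : s => (x : G))).range = Subgroup.closure s := by
    rw [FreeGroup.range_lift_eq_closure]; simp
  let φ : FreeGroup s → Subgroup.closure s := fun w =>
    ⟨FreeGroup.lift (fun x : s => (x : G)) w, by rw [← hr]; exact ⟨w, rfl⟩⟩
  have hφ : Function.Surjective φ := by
    rintro ⟨x, hx⟩
    rw [← hr] at hx
    obtain ⟨w, hw⟩ := hx
    exact ⟨w, Subtype.ext hw⟩
  calc #(Subgroup.closure s) ≤ #(FreeGroup s) := mk_le_of_surjective hφ
    _ ≤ #(List (s × Bool)) := mk_le_of_surjective (f := FreeGroup.mk) (by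
        intro x; exact ⟨x.toWord, FreeGroup.mk_toWord⟩)
    _ ≤ max ℵ₀ #(s × Bool) := mk_list_le_max _
    _ ≤ max ℵ₀ #s := by
        apply max_le (le_max_left _ _)
        rw [mk_prod]
        simp only [lift_uzero, mk_fintype, Fintype.card_bool]
        refine (mul_le_max _ _).trans ?_
        refine max_le (max_le (le_max_right _ _) ?_) (le_max_left _ _)
        exact le_trans (by simp) (le_max_left _ _)

section Min

variable {G : Type u} [Group G] [LinearOrder G] [WellFoundedLT G]

/-- The least element of the right coset `K z`. -/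
noncomputable def mu (K : Subgroup G) (z : G) : G :=
  WellFounded.min (wellFounded_lt : WellFounded ((· < ·) : G → G → Prop))
    {y | y * z⁻¹ ∈ K} ⟨z, by simp⟩

theorem mu_mem (K : Subgroup G) (z : G) : mu K z * z⁻¹ ∈ K :=
  WellFounded.min_mem (wellFounded_lt : WellFounded ((· < ·) : G → G → Prop))
    {y | y * z⁻¹ ∈ K} ⟨z, by simp⟩

theorem mu_le (K : Subgroup G) (z y : G) (h : y * z⁻¹ ∈ K) : mu K z ≤ y := by
  have := WellFounded.not_lt_min (wellFounded_lt : WellFounded ((· < ·) : G → G → Prop))
    {y | y * z⁻¹ ∈ K} (x := y) h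
  exact not_lt.mp this

theorem mu_congr (K : Subgroup G) (z z' : G) (h : z' * z⁻¹ ∈ K) : mu K z' = mu K z := by
  apply le_antisymm
  · apply mu_le
    have : mu K z * z'⁻¹ = (mu K z * z⁻¹) * (z' * z⁻¹)⁻¹ := by group
    rw [this]
    exact K.mul_mem (mu_mem K z) (K.inv_mem h)
  · apply mu_le
    have : mu K z' * z⁻¹ = (mu K z' * z'⁻¹) * (z' * z⁻¹) := by group
    rw [this]
    exact K.mul_mem (mu_mem K z') h

theorem mu_mul (K : Subgroup G) (z k : G) (h : k ∈ K) : mu K (k * z) = mu K z :=
  mu_congr K z (k * z) (by simpa using h)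

theorem mu_anti {K K' : Subgroup G} (h : K ≤ K') (z : G) : mu K' z ≤ mu K z :=
  mu_le _ _ _ (h (mu_mem K z))

theorem mu_ne (K : Subgroup G) (z b : G) (h : b * z⁻¹ ∉ K) : mu K z ≠ b := by
  intro e
  exact h (e ▸ mu_mem K z)

end Min

/-- A chain of pairs of subgroups. -/
structure Chain (G : Type u) [Group G] (ι : Type v) [LinearOrder ι] where
  /-- lower group -/
  lo : ι → Subgroup G
  /-- upper group -/
  hi : ι → Subgroup G
  le : ∀ i, lo i ≤ hi i
  lt : ∀ i j, i < j → hi i ≤ lo j

namespace Chain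

variable {G : Type u} [Group G] [LinearOrder G] [WellFoundedLT G]
variable {ι : Type v} [LinearOrder ι]

/-- The set of indices at which the least element of the coset of `z` changes. -/
def N (C : Chain G ι) (z : G) : Set ι := {i | mu (C.hi i) z ≠ mu (C.lo i) z}

theorem lo_mono (C : Chain G ι) {i j : ι} (h : i ≤ j) : C.lo i ≤ C.lo j := by
  rcases h.eq_or_lt with rfl | h
  · exact le_rfl
  · exact (C.le i).trans (C.lt i j h)

theorem finite_aux [WellFoundedLT ι] (C : Chain G ι) (z : G) :
    ∀ g : G, ∀ i, mu (C.lo i) z = g → (C.N z ∩ Ici i).Finite := by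
  intro g
  induction g using WellFoundedLT.induction with
  | ind g ih =>
    intro i hi
    by_cases he : (C.N z ∩ Ici i).Nonempty
    · obtain ⟨j, hjN, hj⟩ := WellFounded.has_min (wellFounded_lt : WellFounded ((· < ·) : ι → ι → Prop))
        (C.N z ∩ Ici i) he
      have h1 : mu (C.hi j) z < mu (C.lo j) z := lt_of_le_of_ne (mu_anti (C.le j) z) hjN.1
      have h2 : mu (C.lo j) z ≤ g := by
        rw [← hi]; exact mu_anti (C.lo_mono hjN.2) z
      have h3 : (C.N z ∩ Ioi j).Finite := by
        by_cases he' : (C.N z ∩ Ioi j).Nonempty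
        · obtain ⟨k, hkN, hk⟩ := WellFounded.has_min
            (wellFounded_lt : WellFounded ((· < ·) : ι → ι → Prop)) (C.N z ∩ Ioi j) he'
          have h4 : mu (C.lo k) z < g :=
            ((mu_anti (C.lt j k hkN.2) z).trans_lt h1).trans_le h2
          refine (ih _ h4 k rfl).subset ?_
          rintro m ⟨hm1, hm2⟩
          exact ⟨hm1, not_lt.mp (hk m ⟨hm1, hm2⟩)⟩
        · rw [not_nonempty_iff_eq_empty] at he'
          rw [he']; exact finite_empty
      refine (h3.insert j).subset ?_
      rintro m ⟨hm1, hm2⟩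
      have hm3 : j ≤ m := not_lt.mp (hj m ⟨hm1, hm2⟩)
      rcases hm3.eq_or_lt with rfl | hm3
      · exact mem_insert _ _
      · exact mem_insert_of_mem _ ⟨hm1, hm3⟩
    · rw [not_nonempty_iff_eq_empty] at he
      rw [he]; exact finite_empty

theorem finite_N [WellFoundedLT ι] (C : Chain G ι) (z : G) : (C.N z).Finite := by
  by_cases he : (C.N z).Nonempty
  · obtain ⟨j, hjN, hj⟩ := WellFounded.has_min (wellFounded_lt : WellFounded ((· < ·) : ι → ι → Prop))
        (C.N z) he
    refine (C.finite_aux z _ j rfl).subset ?_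
    intro m hm
    exact ⟨hm, not_lt.mp (hj m hm)⟩
  · rw [not_nonempty_iff_eq_empty] at he
    rw [he]; exact finite_empty

/-- Left multiplication by an element of `lo i` does not change `N` from `i` on. -/
theorem N_mul (C : Chain G ι) (i : ι) (k z : G) (hk : k ∈ C.lo i) :
    C.N (k * z) ∩ Ici i = C.N z ∩ Ici i := by
  ext j
  simp only [mem_inter_iff, mem_Ici, and_congr_left_iff]
  intro hj
  have h1 : k ∈ C.lo j := C.lo_mono hj hk
  have h2 : k ∈ C.hi j := C.le j h1
  simp only [N, mem_setOf_eq, mu_mul _ _ _ h1, mu_mul _ _ _ h2]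

theorem N_mul_all (C : Chain G ι) (k z : G) (hk : ∀ i, k ∈ C.lo i) :
    C.N (k * z) = C.N z := by
  ext j
  simp only [N, mem_setOf_eq, mu_mul _ _ _ (hk j), mu_mul _ _ _ (C.le j (hk j))]

/-- If `g ∈ hi i \ lo i` then `i` is in `N` of one of `x`, `g x`. -/
theorem jump (C : Chain G ι) (i : ι) (g x : G) (h1 : g ∈ C.hi i) (h2 : g ∉ C.lo i) :
    i ∈ C.N x ∨ i ∈ C.N (g * x) := by
  by_contra hcon
  push Not at hcon
  obtain ⟨ha, hb⟩ := hcon
  simp only [N, mem_setOf_eq, not_not] at ha hb
  rw [mu_mul _ _ _ h1] at hb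
  have e1 := mu_mem (C.lo i) x
  have e2 := mu_mem (C.lo i) (g * x)
  rw [← ha] at e1
  rw [← hb] at e2
  apply h2
  have : g = (mu (C.hi i) x * (g * x)⁻¹)⁻¹ * (mu (C.hi i) x * x⁻¹) := by group
  rw [this]
  exact (C.lo i).mul_mem ((C.lo i).inv_mem e2) e1

end Chain

end V11290.PG
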