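import Pool.Agent.V11290.PG.TwoSided
import Pool.Agent.V11290.PG.Aleph0

/-!
# Partitions of infinite groups into `κ` two-sided `κ`-large cells
-/

namespace V11290.PG

open Cardinal Set

universe u

open Pointwise in
/-- Every infinite group `G` can be partitioned, for every infinite `κ ≤ #G`, into `κ` cells, each
of which covers `G` by fewer than `κ` left translates and by fewer than `κ` right translates. -/
theorem kappa_large_partition (G : Type u) [Group G] (hG : Infinite G) (κ : Cardinal.{u})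
    (h0 : ℵ₀ ≤ κ) (hκ : κ ≤ #G) :
    ∃ P : Set (Set G), Setoid.IsPartition P ∧ #P = κ ∧
      ∀ A ∈ P, (∃ F : Set G, #F < κ ∧ F * A = Set.univ) ∧
        (∃ F : Set G, #F < κ ∧ A * F = Set.univ) := by
  rcases h0.eq_or_lt with h | h
  · subst h
    obtain ⟨χ, hs, hχ⟩ := exists_syndetic_colouring G
    let χ' : G → ULift.{u} ℕ := fun g => ULift.up (χ g)
    have hs' : Function.Surjective χ' := by
      rintro ⟨n⟩
      obtain ⟨g, hg⟩ := hs n
      exact ⟨g, by simp only [χ']; rw [hg]⟩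
    obtain ⟨P, hP1, hP2, hP3⟩ := partition_of_surjective χ' hs'
    refine ⟨P, hP1, ?_, ?_⟩
    · rw [hP2]; simp
    · intro A hA
      obtain ⟨⟨n⟩, rfl⟩ := hP3 A hA
      have e : χ' ⁻¹' {ULift.up n} = χ ⁻¹' {n} := by
        ext g
        simp only [χ', mem_preimage, mem_singleton_iff]
        exact ⟨fun h => congrArg ULift.down h, fun h => congrArg ULift.up h⟩
      rw [e]
      obtain ⟨F, hF, h1, h2⟩ := hχ n
      have hF' : #F < ℵ₀ := lt_aleph0_iff_set_finite.2 hF
      exact ⟨⟨F, hF', h1⟩, ⟨F, hF', h2⟩⟩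
  · have hG' : ℵ₀ < #G := h.trans_le hκ
    obtain ⟨P, hP1, hP2, hP3⟩ := uncountable_case G hG' κ (aleph0_pos.trans h).ne' hκ
    refine ⟨P, hP1, hP2, ?_⟩
    intro A hA
    obtain ⟨⟨F, hF, h1⟩, ⟨F', hF', h2⟩⟩ := hP3 A hA
    exact ⟨⟨F, hF.trans_lt h, h1⟩, ⟨F', hF'.trans_lt h, h2⟩⟩

open Pointwise in
/-- Every infinite group `G` can be partitioned into `#G` cells, each
of which covers `G` by countably many left translates and by countably many right translates. -/
theorem aleph1_large_partition (G : Type u) [Group G] [Infinite G] :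
    ∃ P : Set (Set G), Setoid.IsPartition P ∧ #P = #G ∧
      ∀ A ∈ P, (∃ F : Set G, F.Countable ∧ F * A = Set.univ) ∧
        (∃ F : Set G, F.Countable ∧ A * F = Set.univ) := by
  rcases (aleph0_le_mk G).eq_or_lt with h | h
  · have hc : Countable G := mk_le_aleph0_iff.1 h.symm.le
    obtain ⟨P, hP1, hP2, hP3⟩ := partition_of_surjective (fun g : G => g)
      Function.surjective_id
    refine ⟨P, hP1, hP2, ?_⟩
    intro A hA
    obtain ⟨g, rfl⟩ := hP3 A hA
    refine ⟨⟨Set.univ, countable_univ, ?_⟩, ⟨Set.univ, countable_univ, ?_⟩⟩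
    · rw [eq_univ_iff_forall]
      intro x
      exact mem_mul.2 ⟨x * g⁻¹, mem_univ _, g, rfl, by group⟩
    · rw [eq_univ_iff_forall]
      intro x
      exact mem_mul.2 ⟨g, rfl, g⁻¹ * x, mem_univ _, by group⟩
  · obtain ⟨P, hP1, hP2, hP3⟩ := uncountable_case G h (#G) (mk_ne_zero G) le_rfl
    refine ⟨P, hP1, hP2, ?_⟩
    intro A hA
    obtain ⟨⟨F, hF, h1⟩, ⟨F', hF', h2⟩⟩ := hP3 A hA
    exact ⟨⟨F, le_aleph0_iff_set_countable.1 hF, h1⟩,
      ⟨F', le_aleph0_iff_set_countable.1 hF', h2⟩⟩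

end V11290.PG
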