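import Pool.Agent.V11290.PG.Chain

/-!
# A countable colouring which is onto on all left and right cosets of a countable subgroup
-/

namespace V11290.PG

open Cardinal Set

universe u v

/-- A system of distinct representatives for a sequence of infinite sets. -/
theorem exists_injective_choice {α : Type u} (C : ℕ → Set α) (hC : ∀ n, (C n).Infinite) :
    ∃ f : ℕ → α, Function.Injective f ∧ ∀ n, f n ∈ C n := by
  classical
  choose t ht1 ht2 using fun n => (hC n).exists_subset_card_eq (n + 1)
  have := (Finset.all_card_le_biUnion_card_iff_exists_injective t).1 ?_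
  · obtain ⟨f, hf, hft⟩ := this
    exact ⟨f, hf, fun n => ht1 n (hft n)⟩
  · intro s
    rcases s.eq_empty_or_nonempty with rfl | hs
    · simp
    · calc s.card ≤ (Finset.range (s.max' hs + 1)).card := Finset.card_le_card (by
            intro x hx
            simp only [Finset.mem_range]
            exact Nat.lt_succ_of_le (s.le_max' x hx))
        _ = s.max' hs + 1 := by simp
        _ = (t (s.max' hs)).card := (ht2 _).symm
        _ ≤ _ := Finset.card_le_card (Finset.subset_biUnion_of_mem t (s.max'_mem hs))

/-- The double coset relation. -/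
def dsetoid {G : Type u} [Group G] (H : Subgroup G) : Setoid G where
  r x y := ∃ h ∈ H, ∃ h' ∈ H, y = h * x * h'
  iseqv := by
    refine ⟨fun x => ⟨1, H.one_mem, 1, H.one_mem, by simp⟩, ?_, ?_⟩
    · rintro x y ⟨h, hh, h', hh', rfl⟩
      exact ⟨h⁻¹, H.inv_mem hh, h'⁻¹, H.inv_mem hh', by group⟩
    · rintro x y z ⟨h, hh, h', hh', rfl⟩ ⟨k, hk, k', hk', rfl⟩
      exact ⟨k * h, H.mul_mem hk hh, h' * k', H.mul_mem hh' hk', by group⟩

/-- There is a countable colouring taking all values on all left and all right cosets of a given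
countably infinite subgroup. -/
theorem exists_colour {G : Type u} [Group G] (H : Subgroup G) [Infinite H] [Countable H] :
    ∃ c : G → Bool × ℕ, (∀ x v, ∃ h ∈ H, c (h * x) = v) ∧ (∀ x v, ∃ h ∈ H, c (x * h) = v) := by
  classical
  let s : Setoid G := dsetoid H
  obtain ⟨e, he⟩ := exists_surjective_nat (H × H × Bool × (Bool × ℕ))
  let pt : Quotient s → ℕ → G := fun q n => ((e n).1 : G) * q.out * ((e n).2.1 : G)
  let C : Quotient s → ℕ → Set G := fun q n =>
    range (fun k : H => if (e n).2.2.1 then (k : G) * pt q n else pt q n * (k : G))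
  have hC : ∀ q n, (C q n).Infinite := by
    intro q n
    apply infinite_range_of_injective
    intro k k' hkk
    by_cases h : (e n).2.2.1 = true
    · simp only [h, if_true] at hkk
      exact Subtype.ext (mul_right_cancel hkk)
    · simp only [h] at hkk
      exact Subtype.ext (mul_left_cancel hkk)
  choose f hf1 hf2 using fun q => exists_injective_choice (C q) (hC q)
  let c : G → Bool × ℕ := fun z =>
    if h : ∃ n, f (Quotient.mk s z) n = z then (e h.choose).2.2.2 else (true, 0)
  have hc : ∀ q n, Quotient.mk s (f q n) = q → c (f q n) = (e n).2.2.2 := by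
    intro q n hq
    have hex : ∃ m, f (Quotient.mk s (f q n)) m = f q n := ⟨n, by rw [hq]⟩
    simp only [c]
    rw [dif_pos hex]
    have h3 : hex.choose = n := by
      have : ∀ m, f (Quotient.mk s (f q n)) m = f q n → m = n := by
        intro m hm
        rw [hq] at hm
        exact hf1 q hm
      exact this _ hex.choose_spec
    rw [h3]
  refine ⟨c, ?_, ?_⟩
  · intro x v
    have hx : s.r (Quotient.mk s x).out x := Quotient.exact (Quotient.out_eq _)
    obtain ⟨h, hh, h', hh', hx'⟩ := hx
    obtain ⟨n, hn⟩ := he (⟨h, hh⟩, ⟨h', hh'⟩, true, v)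
    have hpt : pt (Quotient.mk s x) n = x := by
      simp only [pt, hn]; exact hx'.symm
    obtain ⟨k, hk⟩ := hf2 (Quotient.mk s x) n
    rw [hn] at hk
    simp only [if_true, hpt] at hk
    refine ⟨k, k.2, ?_⟩
    rw [hk, hc _ n ?_, hn]
    rw [← hk]
    exact Quotient.sound ⟨(k : G)⁻¹, H.inv_mem k.2, 1, H.one_mem, by group⟩
  · intro x v
    have hx : s.r (Quotient.mk s x).out x := Quotient.exact (Quotient.out_eq _)
    obtain ⟨h, hh, h', hh', hx'⟩ := hx
    obtain ⟨n, hn⟩ := he (⟨h, hh⟩, ⟨h', hh'⟩, false, v)
    have hpt : pt (Quotient.mk s x) n = x := by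
      simp only [pt, hn]; exact hx'.symm
    obtain ⟨k, hk⟩ := hf2 (Quotient.mk s x) n
    rw [hn] at hk
    simp only [hpt] at hk
    replace hk : x * (k : G) = f (Quotient.mk s x) n := by simpa using hk
    refine ⟨k, k.2, ?_⟩
    rw [hk, hc _ n ?_, hn]
    rw [← hk]
    exact Quotient.sound ⟨1, H.one_mem, (k : G)⁻¹, H.inv_mem k.2, by group⟩

end V11290.PG
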