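import Pool.Agent.V11290.PG.Two

/-!
# Partitions of uncountable groups into many two-sided `ℵ₁`-large pieces
-/

namespace V11290.PG

open Cardinal Set

universe u

section

variable {G : Type u} [Group G] [LinearOrder G]

/-- The chain of subgroups generated by `H` and the initial segments of a linear order. -/
def genChain (H : Subgroup G) : Chain G G where
  lo a := Subgroup.closure ((H : Set G) ∪ Iio a)
  hi a := Subgroup.closure ((H : Set G) ∪ Iic a)
  le _ := Subgroup.closure_mono (union_subset_union_right _ Iio_subset_Iic_self)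
  lt _ _ h := Subgroup.closure_mono (union_subset_union_right _ (Iic_subset_Iio.2 h))

/-- The elements at which the chain `genChain H` grows. -/
def J (H : Subgroup G) : Set G := {a | a ∉ (genChain H).lo a}

theorem H_le_lo (H : Subgroup G) (a : G) : H ≤ (genChain H).lo a :=
  fun _ hx => Subgroup.subset_closure (Or.inl hx)

theorem closure_J [WellFoundedLT G] (H : Subgroup G) :
    Subgroup.closure ((H : Set G) ∪ J H) = ⊤ := by
  rw [eq_top_iff]
  intro a _
  induction a using WellFoundedLT.induction with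
  | ind a ih =>
    by_cases ha : a ∈ J H
    · exact Subgroup.subset_closure (Or.inr ha)
    · have h1 : a ∈ Subgroup.closure ((H : Set G) ∪ Iio a) := not_not.mp ha
      refine (Subgroup.closure_le _).2 ?_ h1
      rintro x (hx | hx)
      · exact Subgroup.subset_closure (Or.inl hx)
      · exact ih x hx trivial

theorem mk_J [WellFoundedLT G] (H : Subgroup G) [Countable H] (hG : ℵ₀ < #G) : #(J H) = #G := by
  apply le_antisymm (mk_set_le _)
  by_contra hlt
  have hlt' : #(J H) < #G := not_le.mp hlt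
  have h1 : #G = #(⊤ : Subgroup G) := (mk_congr Subgroup.topEquiv.toEquiv).symm
  rw [← closure_J H] at h1
  have h2 := mk_closure_le ((H : Set G) ∪ J H)
  have h3 : #(((H : Set G) ∪ J H : Set G)) ≤ #H + #(J H) := mk_union_le _ _
  have h4 : #H ≤ ℵ₀ := mk_le_aleph0
  have h5 : #H + #(J H) < #G := add_lt_of_lt hG.le (h4.trans_lt hG) hlt'
  have h6 : max ℵ₀ #(((H : Set G) ∪ J H : Set G)) < #G := max_lt hG (h3.trans_lt h5)
  exact absurd (h1 ▸ h2.trans_lt h6) (lt_irrefl _)

theorem two_sided [WellFoundedLT G] (H : Subgroup G) [Infinite H] [Countable H] :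
    ∃ (P : J H → Set G) (F : J H → Set G), (∀ i j, i ≠ j → Disjoint (P i) (P j)) ∧
      (∀ i, (F i).Countable) ∧ (∀ i x, ∃ f ∈ F i, f * x ∈ P i) ∧
      (∀ i x, ∃ f ∈ F i, x * f ∈ P i) := by
  classical
  obtain ⟨c, hc1, hc2⟩ := exists_colour H
  let N : G → Set G := fun z => (genChain H).N z
  have hNfin : ∀ z, (N z).Finite := fun z => (genChain H).finite_N z
  have hNH : ∀ h ∈ H, ∀ z, N (h * z) = N z := fun h hh z =>
    (genChain H).N_mul_all h z (fun i => H_le_lo H i hh)
  have hjump : ∀ (i : J H) (x : G), (i : G) ∈ N x ∨ (i : G) ∈ N ((i : G) * x) := by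
    intro i x
    exact (genChain H).jump i i x (Subgroup.subset_closure (Or.inr (mem_Iic.2 le_rfl))) i.2
  let P : J H → Set G := fun i => {z |
    ((c z).1 = true ∧ (i : G) ∈ N z ∧ (N z ∩ Ioi (i : G)).ncard = (c z).2) ∨
    ((c z).1 = false ∧ (i : G) ∈ N z⁻¹ ∧ (N z⁻¹ ∩ Ioi (i : G)).ncard = (c z).2)}
  let F : J H → Set G := fun i =>
    (H : Set G) ∪ ((fun h : G => h * (i : G)) '' H) ∪ ((fun h : G => (i : G)⁻¹ * h) '' H)
  have hHc : (H : Set G).Countable := ‹Countable H›.to_set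
  -- strict decrease of the counting function
  have hcount : ∀ w : G, ∀ i j : G, i ∈ N w → j ∈ N w → i < j →
      (N w ∩ Ioi j).ncard < (N w ∩ Ioi i).ncard := by
    intro w i j hi hj hij
    apply ncard_lt_ncard
    · refine ⟨?_, ?_⟩
      · rintro x ⟨hx1, hx2⟩
        exact ⟨hx1, lt_trans hij hx2⟩
      · intro hcon
        have := hcon ⟨hj, hij⟩
        exact lt_irrefl _ this.2
    · exact (hNfin w).inter_of_left _
  have hcount' : ∀ w : G, ∀ i j : G, i ∈ N w → j ∈ N w →
      (N w ∩ Ioi i).ncard = (N w ∩ Ioi j).ncard → i = j := by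
    intro w i j hi hj he
    rcases lt_trichotomy i j with h | h | h
    · exact absurd he (hcount w i j hi hj h).ne'
    · exact h
    · exact absurd he (hcount w j i hj hi h).ne
  refine ⟨P, F, ?_, ?_, ?_, ?_⟩
  · intro i j hij
    rw [Set.disjoint_left]
    rintro z (⟨h1, h2, h3⟩ | ⟨h1, h2, h3⟩) (⟨k1, k2, k3⟩ | ⟨k1, k2, k3⟩)
    · exact hij (Subtype.ext (hcount' z i j h2 k2 (h3.trans k3.symm)))
    · rw [h1] at k1; exact Bool.noConfusion k1
    · rw [h1] at k1; exact Bool.noConfusion k1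
    · exact hij (Subtype.ext (hcount' z⁻¹ i j h2 k2 (h3.trans k3.symm)))
  · intro i
    exact (hHc.union (hHc.image _)).union (hHc.image _)
  · intro i x
    -- find `w ∈ {x, i x}` with `i ∈ N w`
    rcases hjump i x with hx | hx
    · obtain ⟨h, hh, hv⟩ := hc1 x (true, (N x ∩ Ioi (i : G)).ncard)
      refine ⟨h, Or.inl (Or.inl hh), Or.inl ⟨by rw [hv], ?_, ?_⟩⟩
      · rw [hNH h hh]; exact hx
      · rw [hNH h hh, hv]
    · obtain ⟨h, hh, hv⟩ := hc1 ((i : G) * x) (true, (N ((i : G) * x) ∩ Ioi (i : G)).ncard)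
      refine ⟨h * i, Or.inl (Or.inr ⟨h, hh, rfl⟩), ?_⟩
      rw [mul_assoc]
      refine Or.inl ⟨by rw [hv], ?_, ?_⟩
      · rw [hNH h hh]; exact hx
      · rw [hNH h hh, hv]
  · intro i x
    rcases hjump i x⁻¹ with hx | hx
    · obtain ⟨h, hh, hv⟩ := hc2 x (false, (N x⁻¹ ∩ Ioi (i : G)).ncard)
      refine ⟨h, Or.inl (Or.inl hh), Or.inr ⟨by rw [hv], ?_, ?_⟩⟩
      · rw [mul_inv_rev, hNH _ (H.inv_mem hh)]; exact hx
      · rw [mul_inv_rev, hNH _ (H.inv_mem hh), hv]
    · obtain ⟨h, hh, hv⟩ := hc2 (x * (i : G)⁻¹) (false, (N ((i : G) * x⁻¹) ∩ Ioi (i : G)).ncard)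
      refine ⟨(i : G)⁻¹ * h, Or.inr ⟨h, hh, rfl⟩, ?_⟩
      rw [← mul_assoc]
      have e : (x * (i : G)⁻¹ * h)⁻¹ = h⁻¹ * ((i : G) * x⁻¹) := by group
      refine Or.inr ⟨by rw [hv], ?_, ?_⟩
      · rw [e, hNH _ (H.inv_mem hh)]; exact hx
      · rw [e, hNH _ (H.inv_mem hh), hv]

end

/-- Every infinite group has a countably infinite subgroup. -/
theorem exists_countable_subgroup (G : Type u) [Group G] [Infinite G] :
    ∃ H : Subgroup G, Infinite H ∧ Countable H := by
  let e := Infinite.natEmbedding G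
  let s : Set G := range e
  refine ⟨Subgroup.closure s, ?_, ?_⟩
  · have : Infinite s := (infinite_range_of_injective e.injective).to_subtype
    exact Infinite.of_injective (fun x : s => (⟨x, Subgroup.subset_closure x.2⟩ :
      Subgroup.closure s)) (fun x y h => Subtype.ext (congrArg (fun z : Subgroup.closure s => (z : G)) h))
  · have h1 := mk_closure_le s
    have h2 : #s ≤ ℵ₀ := (countable_range e).le_aleph0
    have h3 : #(Subgroup.closure s) ≤ ℵ₀ := h1.trans (max_le le_rfl h2)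
    exact mk_le_aleph0_iff.1 h3

/-- The partition associated with a surjective map. -/
theorem partition_of_surjective {G : Type u} {ι : Type u} (χ : G → ι)
    (hχ : Function.Surjective χ) :
    ∃ P : Set (Set G), Setoid.IsPartition P ∧ #P = #ι ∧
      ∀ A ∈ P, ∃ i, A = χ ⁻¹' {i} := by
  refine ⟨range (fun i => χ ⁻¹' {i}), ?_, ?_, ?_⟩
  · constructor
    · rintro ⟨i, hi⟩
      obtain ⟨g, hg⟩ := hχ i
      have : g ∈ χ ⁻¹' {i} := hg
      simp only at hi
      rw [hi] at this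
      exact this
    · intro a
      refine ⟨χ ⁻¹' {χ a}, ⟨⟨χ a, rfl⟩, rfl⟩, ?_⟩
      rintro B ⟨⟨i, rfl⟩, hi⟩
      have : χ a = i := hi
      rw [this]
  · apply mk_range_eq
    intro i j hij
    obtain ⟨g, hg⟩ := hχ i
    have : g ∈ χ ⁻¹' {j} := by
      simp only at hij
      rw [← hij]; exact hg
    exact hg.symm.trans this
  · rintro A ⟨i, rfl⟩
    exact ⟨i, rfl⟩

open Pointwise in
/-- For `1 ≤ κ ≤ #G`, `#G` uncountable: a partition of `G` into `κ` cells, each covering `G` by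
countably many left translates and by countably many right translates. -/
theorem uncountable_case (G : Type u) [Group G] (hG : ℵ₀ < #G) (κ : Cardinal.{u})
    (h0 : κ ≠ 0) (hκ : κ ≤ #G) :
    ∃ P : Set (Set G), Setoid.IsPartition P ∧ #P = κ ∧
      ∀ A ∈ P, (∃ F : Set G, #F ≤ ℵ₀ ∧ F * A = Set.univ) ∧
        (∃ F : Set G, #F ≤ ℵ₀ ∧ A * F = Set.univ) := by
  classical
  have : Infinite G := infinite_iff.2 hG.le
  obtain ⟨o, hwf, -⟩ := exists_ord_eq_type_lt G
  obtain ⟨H, hH1, hH2⟩ := exists_countable_subgroup G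
  obtain ⟨P, F, hP, hF, hl, hr⟩ := two_sided H
  have hJ : κ ≤ #(J H) := by rw [mk_J H hG]; exact hκ
  obtain ⟨S, hS⟩ := le_mk_iff_exists_set.1 hJ
  have hSne : Nonempty S := by
    rw [← mk_ne_zero_iff, hS]; exact h0
  obtain ⟨i0⟩ := hSne
  -- the colouring
  let χ : G → S := fun z => if h : ∃ i : S, z ∈ P i then h.choose else i0
  have hχ : ∀ (i : S) (z : G), z ∈ P i → χ z = i := by
    intro i z hz
    have hex : ∃ i : S, z ∈ P i := ⟨i, hz⟩
    simp only [χ]
    rw [dif_pos hex]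
    by_contra hne
    have h1 := hex.choose_spec
    exact Set.disjoint_left.1 (hP _ _ (fun e => hne (Subtype.ext e))) h1 hz
  have hsurj : Function.Surjective χ := by
    intro i
    obtain ⟨f, -, hf⟩ := hl i 1
    exact ⟨f * 1, hχ i _ hf⟩
  obtain ⟨Q, hQ1, hQ2, hQ3⟩ := partition_of_surjective χ hsurj
  refine ⟨Q, hQ1, hQ2.trans hS, ?_⟩
  intro A hA
  obtain ⟨i, rfl⟩ := hQ3 A hA
  refine ⟨⟨(F i)⁻¹, ?_, ?_⟩, ⟨(F i)⁻¹, ?_, ?_⟩⟩
  · rw [Cardinal.mk_inv]; exact (hF i).le_aleph0
  · rw [eq_univ_iff_forall]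
    intro x
    obtain ⟨f, hf, hfx⟩ := hl i x
    rw [mem_mul]
    exact ⟨f⁻¹, inv_mem_inv.2 hf, f * x, hχ i _ hfx, by group⟩
  · rw [Cardinal.mk_inv]; exact (hF i).le_aleph0
  · rw [eq_univ_iff_forall]
    intro x
    obtain ⟨f, hf, hfx⟩ := hr i x
    rw [mem_mul]
    exact ⟨x * f, hχ i _ hfx, f⁻¹, inv_mem_inv.2 hf, by group⟩

end V11290.PG
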